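import Pool.Agent.TH979.Rot.Fin

/-!
# Rotation symmetric bent functions of degree at most three
-/

set_option autoImplicit false

namespace Pool.Agent.U309.RotCubic

open Finset Pool.Agent.TH979.Rot

variable {n : ℕ} [NeZero n]

/-- rotation by `a` -/
def rt (a : ZMod n) (x : ZMod n → ZMod 2) : ZMod n → ZMod 2 := fun i => x (i + a)

omit [NeZero n] in
theorem rt_apply (a : ZMod n) (x : ZMod n → ZMod 2) (i : ZMod n) : rt a x i = x (i + a) := rfl

omit [NeZero n] in
theorem rt_add (a : ZMod n) (x y : ZMod n → ZMod 2) : rt a (x + y) = rt a x + rt a y := rfl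

omit [NeZero n] in
theorem rt_rt (a b : ZMod n) (x : ZMod n → ZMod 2) : rt a (rt b x) = rt (a + b) x := by
  funext i
  simp only [rt, add_assoc]

omit [NeZero n] in
theorem rt_zero (x : ZMod n → ZMod 2) : rt 0 x = x := by
  funext i
  simp only [rt, add_zero]

theorem span_odd (j : ℕ) : ∀ (S : AddSubgroup (ZMod n → ZMod 2))
    (_ : ∀ (a : ZMod n), ∀ x ∈ S, rt a x ∈ S)
    (w : ZMod n → ZMod 2) (_ : w ∈ S) (_ : ∀ i, w (i + ((2 ^ j : ℕ) : ZMod n)) = w i)
    (_ : ∑ i ∈ range (2 ^ j), w (i : ZMod n) = 1)
    (y : ZMod n → ZMod 2) (_ : ∀ i, y (i + ((2 ^ j : ℕ) : ZMod n)) = y i), y ∈ S := by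
  induction j with
  | zero =>
    intro S hS w hw hper hodd y hy
    have hc : ∀ z : ZMod n → ZMod 2, (∀ i, z (i + ((2 ^ 0 : ℕ) : ZMod n)) = z i) →
        ∀ i, z i = z 0 := by
      intro z hz i
      have h1 := per_mul (N := 2 ^ 0) hz i.val 0
      rw [pow_zero, one_mul, zero_add, ZMod.natCast_zmod_val] at h1
      exact h1
    have hw0 : w 0 = 1 := by
      simpa using hodd
    have hw1 : ∀ i, w i = 1 := fun i => by rw [hc w hper i, hw0]
    have hy0 : y 0 = 0 ∨ y 0 = 1 := by
      generalize y 0 = a
      revert a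
      decide
    rcases hy0 with h | h
    · have : y = 0 := by
        funext i
        rw [hc y hy i, h]
        rfl
      rw [this]
      exact S.zero_mem
    · have : y = w := by
        funext i
        rw [hc y hy i, h, hw1]
      rw [this]
      exact hw
  | succ j ih =>
    intro S hS w hw hper hodd y hy
    let φ : (ZMod n → ZMod 2) →+ (ZMod n → ZMod 2) :=
      { toFun := fun x => x + rt ((2 ^ j : ℕ) : ZMod n) x
        map_zero' := by funext i; simp [rt]
        map_add' := fun x y => by
          rw [rt_add]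
          abel }
    have hφ : ∀ x, φ x = x + rt ((2 ^ j : ℕ) : ZMod n) x := fun _ => rfl
    have hφS : ∀ (a : ZMod n), ∀ x ∈ S.map φ, rt a x ∈ S.map φ := by
      rintro a _ ⟨x, hx, rfl⟩
      refine ⟨rt a x, hS a x hx, ?_⟩
      rw [hφ, hφ, rt_add, rt_rt, rt_rt, add_comm a]
    have hφper : ∀ z : ZMod n → ZMod 2, (∀ i, z (i + ((2 ^ (j + 1) : ℕ) : ZMod n)) = z i) →
        ∀ i, (φ z) (i + ((2 ^ j : ℕ) : ZMod n)) = φ z i := by
      intro z hz i
      rw [hφ]
      simp only [Pi.add_apply, rt_apply]
      have e : i + ((2 ^ j : ℕ) : ZMod n) + ((2 ^ j : ℕ) : ZMod n) =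
          i + ((2 ^ (j + 1) : ℕ) : ZMod n) := by
        rw [pow_succ]
        push_cast
        ring
      rw [e, hz, add_comm]
    have hφodd : ∑ i ∈ range (2 ^ j), φ w (i : ZMod n) = 1 := by
      rw [← hodd, pow_succ, mul_two, sum_range_add, hφ]
      simp only [Pi.add_apply, rt_apply, sum_add_distrib]
      congr 1
      refine sum_congr rfl fun i _ => ?_
      congr 1
      push_cast
      ring
    have h1 := ih (S.map φ) hφS (φ w) ⟨w, hw, rfl⟩ (hφper w hper) hφodd
    obtain ⟨z, hz, hzy⟩ := h1 (φ y) (hφper y hy)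
    have h2 : φ (y + z) = 0 := by
      rw [map_add, hzy]
      exact add_self_v _
    have h3 : ∀ i, (y + z) (i + ((2 ^ j : ℕ) : ZMod n)) = (y + z) i := by
      intro i
      have h4 := congrFun h2 i
      rw [hφ] at h4
      have h5 : (y + z) i + (y + z) (i + ((2 ^ j : ℕ) : ZMod n)) = 0 := h4
      exact (CharTwo.add_eq_zero.1 h5).symm
    obtain ⟨z', hz', hz'y⟩ := h1 (y + z) h3
    have h6 : y = z + φ z' := by
      rw [hz'y, add_comm y z, ← add_assoc, add_self_v, zero_add]
    rw [h6]
    exact S.add_mem hz (S.add_mem hz' (hS _ _ hz'))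

theorem exists_diff {w : ZMod n → ZMod 2} (h : ∑ i, w i = 0) :
    ∃ x : ZMod n → ZMod 2, w = x + rt 1 x := by
  refine ⟨fun i => ∑ t ∈ range i.val, w (t : ZMod n), ?_⟩
  funext i
  simp only [Pi.add_apply, rt_apply]
  have hpos : 0 < n := Nat.pos_of_ne_zero (NeZero.ne n)
  rcases Nat.lt_or_ge (i.val + 1) n with h1 | h1
  · have h2 : (i + 1).val = i.val + 1 := by
      have e : i + 1 = ((i.val + 1 : ℕ) : ZMod n) := by
        push_cast
        rw [ZMod.natCast_zmod_val]
      rw [e, ZMod.val_cast_of_lt h1]
    rw [h2, sum_range_succ, ZMod.natCast_zmod_val, ← add_assoc, add_self2, zero_add]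
  · have h2 : i.val + 1 = n := by
      have := ZMod.val_lt i
      omega
    have h3 : i + 1 = 0 := by
      have e : i + 1 = ((i.val + 1 : ℕ) : ZMod n) := by
        push_cast
        rw [ZMod.natCast_zmod_val]
      rw [e, h2, ZMod.natCast_self]
    rw [h3, ZMod.val_zero, range_zero, sum_empty, add_zero]
    have h4 := h
    rw [sum_zmod] at h4
    have h5 : range n = range (i.val + 1) := by rw [h2]
    rw [h5, sum_range_succ, ZMod.natCast_zmod_val] at h4
    exact (CharTwo.add_eq_zero.1 h4).symm

omit [NeZero n] in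
theorem avg {M k : ℕ} (hn : n = 2 * (M * (2 * k + 1)))
    (P : (ZMod n → ZMod 2) → ZMod 2 → Prop) (h0 : P 0 0)
    (hadd : ∀ x y a b, P x a → P y b → P (x + y) (a + b))
    (hrot : ∀ (a : ZMod n) x e, P x e → P (rt a x) e) {w : ZMod n → ZMod 2} (hw : P w 1) :
    ∃ w', P w' 1 ∧ (∀ i, w' (i + ((2 * M : ℕ) : ZMod n)) = w' i) ∧
      (∀ d, (∀ i, w (i + d) = w i) → ∀ i, w' (i + d) = w' i) := by
  set U : ℕ → (ZMod n → ZMod 2) := fun t i =>
    ∑ j ∈ range t, w (i + ((2 * M * j : ℕ) : ZMod n)) with hU
  have h4 : ∀ t : ℕ, P (U t) t := by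
    intro t
    induction t with
    | zero =>
      have e : U 0 = 0 := by
        funext i
        simp [hU]
      rw [e]
      simpa using h0
    | succ t ih =>
      have e : U (t + 1) = U t + rt ((2 * M * t : ℕ) : ZMod n) w := by
        funext i
        simp only [hU, Pi.add_apply, sum_range_succ, rt]
      rw [e]
      push_cast
      exact hadd _ _ _ _ ih (hrot _ _ _ hw)
  refine ⟨U (2 * k + 1), ?_, ?_, ?_⟩
  · have h5 := h4 (2 * k + 1)
    have e : ((2 * k + 1 : ℕ) : ZMod 2) = 1 := by
      push_cast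
      have h6 : (2 : ZMod 2) = 0 := by decide
      rw [h6, zero_mul, zero_add]
    rwa [e] at h5
  · intro i
    simp only [hU]
    have e1 : ∀ j : ℕ, i + ((2 * M : ℕ) : ZMod n) + ((2 * M * j : ℕ) : ZMod n) =
        i + ((2 * M * (j + 1) : ℕ) : ZMod n) := by
      intro j
      push_cast
      ring
    simp_rw [e1]
    have e2 := sum_range_succ (fun j => w (i + ((2 * M * j : ℕ) : ZMod n))) (2 * k + 1)
    have e3 := sum_range_succ' (fun j => w (i + ((2 * M * j : ℕ) : ZMod n))) (2 * k + 1)
    rw [e2] at e3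
    have e4 : ((2 * M * (2 * k + 1) : ℕ) : ZMod n) = 0 := by
      have : 2 * M * (2 * k + 1) = n := by
        rw [hn]
        ring
      rw [this]
      exact ZMod.natCast_self n
    rw [e4] at e3
    simp only [mul_zero, Nat.cast_zero, add_zero] at e3
    exact (add_right_cancel e3).symm
  · intro d hd i
    simp only [hU]
    refine sum_congr rfl fun j _ => ?_
    have e : i + d + ((2 * M * j : ℕ) : ZMod n) = i + ((2 * M * j : ℕ) : ZMod n) + d := by ring
    rw [e, hd]

/-- the third derivative at the origin -/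
def T (f : (ZMod n → ZMod 2) → ZMod 2) (a b c : ZMod n → ZMod 2) : ZMod 2 :=
  f (a + b + c) + f (a + b) + f (a + c) + f (b + c) + f a + f b + f c + f 0

/-- functions of degree at most three -/
def Cubic (f : (ZMod n → ZMod 2) → ZMod 2) : Prop :=
  ∀ x a b c, f (x + a + b + c) + f (x + a + b) + f (x + a + c) + f (x + b + c) +
    f (x + a) + f (x + b) + f (x + c) + f x = T f a b c

omit [NeZero n] in
theorem T_comm12 (f : (ZMod n → ZMod 2) → ZMod 2) (a b c : ZMod n → ZMod 2) :
    T f a b c = T f b a c := by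
  unfold T
  rw [add_comm b a]
  ring

omit [NeZero n] in
theorem T_comm23 (f : (ZMod n → ZMod 2) → ZMod 2) (a b c : ZMod n → ZMod 2) :
    T f a b c = T f a c b := by
  unfold T
  rw [add_comm c b, add_right_comm a c b]
  ring

omit [NeZero n] in
theorem T_add_left {f : (ZMod n → ZMod 2) → ZMod 2} (h : Cubic f) (a a' b c : ZMod n → ZMod 2) :
    T f (a + a') b c = T f a b c + T f a' b c := by
  have h1 := h a' a b c
  rw [← h1]
  unfold T
  rw [add_comm a' a]
  linear_combination (- f (a' + b + c) - f (a' + b) - f (a' + c) - f a') *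
    (by decide : (2 : ZMod 2) = 0)

omit [NeZero n] in
theorem T_rt {f : (ZMod n → ZMod 2) → ZMod 2} (h : ∀ (a : ZMod n) x, f (rt a x) = f x)
    (s : ZMod n) (a b c : ZMod n → ZMod 2) : T f (rt s a) (rt s b) (rt s c) = T f a b c := by
  unfold T
  simp only [← rt_add, h]

/-- the all-ones vector -/
def one (n : ℕ) : ZMod n → ZMod 2 := fun _ => 1

omit [NeZero n] in
theorem rt_one (a : ZMod n) : rt a (one n) = one n := rfl

/-- the radical of the derivative of a cubic function in the direction of the all-ones vector -/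
def SA (f : (ZMod n → ZMod 2) → ZMod 2) (h : Cubic f) : AddSubgroup (ZMod n → ZMod 2) where
  carrier := {y | ∀ z, T f y (one n) z = 0}
  zero_mem' := fun z => by
    unfold T
    simp only [zero_add]
    linear_combination (f (one n + z) + f (one n) + f z + f 0) * (by decide : (2 : ZMod 2) = 0)
  add_mem' := fun {y y'} hy hy' z => by
    rw [T_add_left h, hy z, hy' z, add_zero]
  neg_mem' := fun {y} hy => by
    have e : -y = y := by
      have := add_self_v y
      rw [neg_eq_iff_add_eq_zero]
      exact this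
    rw [e]
    exact hy

omit [NeZero n] in
theorem SA_rt {f : (ZMod n → ZMod 2) → ZMod 2} (h : Cubic f)
    (hrot : ∀ (a : ZMod n) x, f (rt a x) = f x) (a : ZMod n) (x : ZMod n → ZMod 2)
    (hx : x ∈ SA f h) : rt a x ∈ SA f h := by
  intro z
  have h1 : z = rt a (rt (-a) z) := by
    rw [rt_rt, add_neg_cancel, rt_zero]
  rw [h1, ← rt_one a, T_rt hrot]
  exact hx _

/-- a bent cubic rotation symmetric function: the vectors of period `2 M` are in the radical of the
derivative in the direction of the all-ones vector -/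
theorem claimA {M k j : ℕ} (hM : M = 2 ^ j) (hn : n = 2 * (M * (2 * k + 1)))
    {f : (ZMod n → ZMod 2) → ZMod 2} (hrot : ∀ (a : ZMod n) x, f (rt a x) = f x)
    (hb : Bent f) (h3 : Cubic f) (y : ZMod n → ZMod 2)
    (hy : ∀ i, y (i + ((2 * M : ℕ) : ZMod n)) = y i) : y ∈ SA f h3 := by
  have hone : one n ≠ 0 := by
    intro h
    have h1 := congrFun h 0
    exact absurd h1 (by decide : (1 : ZMod 2) ≠ 0)
  obtain ⟨w, hw⟩ := quadratic (fun x => f (x + one n) + f x) (by
    intro u v w
    have h1 := h3 (one n) u v w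
    simp only [T] at h1
    simp only [zero_add]
    rw [add_comm (one n) u, add_comm (one n) v, add_comm (one n) w] at h1
    have e1 : u + v + w + one n = u + one n + v + w := by abel
    have e2 : u + v + one n = u + one n + v := by abel
    have e3 : u + w + one n = u + one n + w := by abel
    have e4 : v + w + one n = v + one n + w := by abel
    rw [e1, e2, e3, e4]
    linear_combination h1 + (f (u + v + w) + f (u + v) + f (u + w) + f (v + w) + f u + f v + f w +
      f 0) * (by decide : (2 : ZMod 2) = 0)) (by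
    have h1 := autocorr hb hone
    rw [← h1]
    refine sum_congr rfl fun x _ => ?_
    rw [sg_add, mul_comm])
  -- averaging
  obtain ⟨w', hw', hper, -⟩ := avg (n := n) hn
    (fun w e => ∀ x, f (x + w + one n) + f (x + w) = f (x + one n) + f x + e)
    (fun x => by simp)
    (fun w w' e e' h h' x => by
      rw [← add_assoc, h' (x + w), h x, add_assoc])
    (fun a w e h x => by
      have h1 := h (rt (-a) x)
      have h2 : x = rt a (rt (-a) x) := by
        rw [rt_rt, add_neg_cancel, rt_zero]
      rw [h2, ← rt_add, ← rt_one a, ← rt_add, ← rt_add, hrot, hrot, hrot, hrot]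
      exact h1)
    (w := w) hw
  have hn' : n = 2 * M * (2 * k + 1) := by
    rw [hn]
    ring
  -- the weight
  have hodd : ∑ i ∈ range (2 ^ (j + 1)), w' (i : ZMod n) = 1 := by
    by_contra hne
    have h1 : ∑ i ∈ range (2 ^ (j + 1)), w' (i : ZMod n) = 0 := by
      revert hne
      generalize ∑ i ∈ range (2 ^ (j + 1)), w' (i : ZMod n) = z
      revert z
      decide
    have e2 : 2 ^ (j + 1) = 2 * M := by
      rw [hM, pow_succ, mul_comm]
    rw [e2] at h1
    have h2 : ∑ i, w' i = 0 := by
      have h4 : range n = range (2 * M * (2 * k + 1)) := by rw [← hn']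
      rw [sum_zmod, h4, sum_per (N := 2 * M) (fun k => by
        have := hper (k : ZMod n)
        push_cast at this ⊢
        exact this), h1, mul_zero]
    obtain ⟨x, hx⟩ := exists_diff h2
    have h4 := hw' x
    have e : x + w' = rt 1 x := by
      rw [hx, ← add_assoc, add_self_v, zero_add]
    rw [e, ← rt_one 1, ← rt_add, hrot, hrot, rt_one] at h4
    exact absurd (by linear_combination -h4 : (1 : ZMod 2) = 0) (by decide)
  have hmem : w' ∈ SA f h3 := by
    intro z
    have h2 := hw' z
    have h4 := hw' 0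
    unfold T
    simp only [zero_add] at h4
    have e1 : w' + one n + z = z + w' + one n := by abel
    rw [e1, add_comm w' z, add_comm (one n) z]
    linear_combination h2 + h4 + (f (z + one n) + f z + f (one n) + f 0 + 1) *
      (by decide : (2 : ZMod 2) = 0)
  refine span_odd (j + 1) (SA f h3) (SA_rt h3 hrot) w' hmem ?_ hodd y ?_
  · intro i
    have e2 : 2 ^ (j + 1) = 2 * M := by
      rw [hM, pow_succ, mul_comm]
    rw [e2]
    exact hper i
  · intro i
    have e2 : 2 ^ (j + 1) = 2 * M := by
      rw [hM, pow_succ, mul_comm]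
    rw [e2]
    exact hy i

omit [NeZero n] in
theorem per_of {M k : ℕ} {x : ZMod n → ZMod 2}
    (h : ∀ i, x (i + ((M * (2 * k + 1) : ℕ) : ZMod n)) = x i)
    (hp : ∀ i, x (i + ((2 * M : ℕ) : ZMod n)) = x i) : ∀ i, x (i + (M : ZMod n)) = x i := by
  intro i
  have h1 := per_mul hp k (i + (M : ZMod n))
  have e : i + (M : ZMod n) + ((2 * M * k : ℕ) : ZMod n) =
      i + ((M * (2 * k + 1) : ℕ) : ZMod n) := by
    push_cast
    ring
  rw [e, h] at h1
  exact h1.symm

/-- **The core.** A rotation symmetric function of degree at most three which vanishes on the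
vectors of period `n / 2` is not bent. -/
theorem core {M k j : ℕ} (hM : M = 2 ^ j) (hn : n = 2 * (M * (2 * k + 1)))
    {f : (ZMod n → ZMod 2) → ZMod 2} (hrot : ∀ (a : ZMod n) x, f (rt a x) = f x)
    (hb : Bent f) (h0 : ∀ x ∈ Um n (M * (2 * k + 1)), f x = 0) (h3 : Cubic f) : False := by
  have hA := claimA hM hn hrot hb h3
  have hM0 : 0 < M := by
    rw [hM]
    positivity
  obtain ⟨b, hbM⟩ := exists_anti hM0 hn
  have hbm : ∀ i, b (i + ((M * (2 * k + 1) : ℕ) : ZMod n)) = b i + 1 := anti_odd hbM k
  set m : ℕ := M * (2 * k + 1) with hm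
  have hmm := half_add hn
  have hsum := coset_sum hn hb h0 hbm
  -- `f` is quadratic on the coset of `b`
  obtain ⟨u0, hu0⟩ := quadratic (fun u : Um n m => f (b + u)) (by
    intro u v w
    have h1 := h3 b u v w
    unfold T at h1
    rw [h0 _ (add_mem (add_mem u.2 v.2) w.2), h0 _ (add_mem u.2 v.2), h0 _ (add_mem u.2 w.2),
      h0 _ (add_mem v.2 w.2), h0 _ u.2, h0 _ v.2, h0 _ w.2, h0 _ (Um n m).zero_mem] at h1
    simp only [AddSubgroup.coe_add, AddSubgroup.coe_zero, add_zero]
    simp only [← add_assoc]
    rw [h1]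
    simp) hsum
  -- the averaging
  set P : (ZMod n → ZMod 2) → ZMod 2 → Prop := fun v e => v ∈ Um n m ∧
    ∀ u ∈ Um n m, f (b + u + v) = f (b + u) + e with hP
  have hP0 : P 0 0 := ⟨(Um n m).zero_mem, fun u _ => by simp⟩
  have hPadd : ∀ x y a b, P x a → P y b → P (x + y) (a + b) := by
    intro x y a b' h h'
    refine ⟨(Um n m).add_mem h.1 h'.1, fun u hu => ?_⟩
    have e1 : b + u + (x + y) = b + (u + x) + y := by abel
    rw [e1, h'.2 _ ((Um n m).add_mem hu h.1), ← add_assoc, h.2 u hu, add_assoc]
  have hUrot : ∀ (a : ZMod n) x, x ∈ Um n m → rt a x ∈ Um n m := by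
    intro a x hx i
    have e1 : i + (m : ZMod n) + a = i + a + m := by ring
    change x (i + m + a) = x (i + a)
    rw [e1]
    exact hx _
  have hPrt : ∀ (a : ZMod n) x e, P x e → P (rt a x) e := by
    intro a x e h
    refine ⟨hUrot a x h.1, fun u hu => ?_⟩
    have h1 : rt (-a) b + b ∈ Um n m := by
      intro i
      have e1 : i + (m : ZMod n) + -a = i + -a + m := by ring
      change b (i + m + -a) + b (i + m) = b (i + -a) + b i
      rw [e1, hbm, hbm]
      linear_combination (by decide : (2 : ZMod 2) = 0)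
    have h2 : b + u = rt a (b + ((rt (-a) b + b) + rt (-a) u)) := by
      have e2 : b + ((rt (-a) b + b) + rt (-a) u) = rt (-a) b + rt (-a) u + (b + b) := by abel
      rw [e2, add_self_v, add_zero, rt_add, rt_rt, rt_rt, add_neg_cancel, rt_zero, rt_zero]
    rw [h2, ← rt_add, hrot, hrot]
    exact h.2 _ ((Um n m).add_mem h1 (hUrot _ _ hu))
  obtain ⟨u', hu', hper, -⟩ := avg (n := n) hn P hP0 hPadd hPrt (w := (u0 : ZMod n → ZMod 2))
    ⟨u0.2, fun u hu => by
      have := hu0 ⟨u, hu⟩
      simp only [AddSubgroup.coe_add, ← add_assoc] at this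
      exact this⟩
  have huM : ∀ i, u' (i + (M : ZMod n)) = u' i := per_of hu'.1 hper
  -- all the vectors of period `M` are in the radical
  have hrad : ∀ v : ZMod n → ZMod 2, (∀ i, v (i + (M : ZMod n)) = v i) → P v (f (b + v) + f b) := by
    intro v hv
    have hvm : v ∈ Um n m := per_mul hv (2 * k + 1)
    refine ⟨hvm, fun u hu => ?_⟩
    set w : ZMod n → ZMod 2 := fun i => v i * b i with hw
    have hw2 : ∀ i, w (i + ((2 * M : ℕ) : ZMod n)) = w i := by
      intro i
      have e : i + ((2 * M : ℕ) : ZMod n) = i + M + M := by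
        push_cast
        ring
      simp only [hw]
      rw [e, hv, hv, hbM, hbM, add_assoc, add_self2, add_zero]
    have hwA : w ∈ SA f h3 := hA w hw2
    have hvw : v = w + rt (m : ZMod n) w := by
      funext i
      have h1 : v (i + m) = v i := hvm i
      change v i = v i * b i + v (i + m) * b (i + m)
      rw [h1, hbm]
      linear_combination (-v i * b i) * (by decide : (2 : ZMod 2) = 0)
    have hbb : b + rt (m : ZMod n) b = one n := by
      funext i
      change b i + b (i + m) = 1
      rw [hbm, ← add_assoc, add_self2, zero_add]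
    have hT : T f v u b = 0 := by
      have hrr : ∀ x : ZMod n → ZMod 2, rt (m : ZMod n) (rt (m : ZMod n) x) = x := by
        intro x
        rw [rt_rt, hmm, rt_zero]
      have hu1 : rt (m : ZMod n) u = u := by
        funext i
        exact hu i
      have h1 : T f (rt (m : ZMod n) w) u b = T f w u (rt (m : ZMod n) b) := by
        rw [← T_rt hrot (m : ZMod n) (rt (m : ZMod n) w) u b, hrr, hu1]
      have h2 : T f w u b + T f w u (rt (m : ZMod n) b) = T f w u (b + rt (m : ZMod n) b) := by
        rw [T_comm12 f w u b, T_comm12 f w u (rt (m : ZMod n) b),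
          T_comm12 f w u (b + rt (m : ZMod n) b), T_comm23 f u w b,
          T_comm23 f u w (rt (m : ZMod n) b), T_comm23 f u w (b + rt (m : ZMod n) b),
          T_comm12 f u b w, T_comm12 f u (rt (m : ZMod n) b) w,
          T_comm12 f u (b + rt (m : ZMod n) b) w, T_add_left h3]
      rw [hvw, T_add_left h3, h1, h2, hbb, T_comm23]
      exact hwA u
    have h1 := h3 0 b u v
    have h2 : T f b u v = 0 := by
      rw [T_comm12, T_comm23, T_comm12, ← hT]
    rw [h2] at h1
    simp only [zero_add] at h1
    rw [h0 _ (add_mem hu hvm), h0 _ hu, h0 _ hvm, h0 _ (Um n m).zero_mem] at h1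
    linear_combination h1 - (f (b + v) + f b + f (b + u)) * (by decide : (2 : ZMod 2) = 0)
  -- the contradiction
  set u := b + rt 1 b with hu
  have huper : ∀ i, u (i + (M : ZMod n)) = u i := by
    intro i
    have e1 : i + (M : ZMod n) + 1 = i + 1 + M := by ring
    change b (i + M) + b (i + M + 1) = b i + b (i + 1)
    rw [e1, hbM, hbM]
    linear_combination (by decide : (2 : ZMod 2) = 0)
  have huP : P u 0 := by
    have h1 := hrad u huper
    have e : b + u = rt 1 b := by
      rw [hu, ← add_assoc, add_self_v, zero_add]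
    rw [e, hrot, add_self2] at h1
    exact h1
  have huodd : ∑ i ∈ range (2 ^ j), u (i : ZMod n) = 1 := by
    have h1 : ∀ t : ℕ, ∑ i ∈ range t, u (i : ZMod n) = b 0 + b (t : ZMod n) := by
      intro t
      induction t with
      | zero => simp [add_self2]
      | succ t ih =>
        rw [sum_range_succ, ih]
        change b 0 + b (t : ZMod n) + (b (t : ZMod n) + b ((t : ZMod n) + 1)) = _
        push_cast
        rw [add_assoc, ← add_assoc (b (t : ZMod n)), add_self2, zero_add]
    rw [h1, ← hM]
    have h2 := hbM 0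
    rw [zero_add] at h2
    rw [h2, ← add_assoc, add_self2, zero_add]
  let SB : AddSubgroup (ZMod n → ZMod 2) :=
    { carrier := {v | P v 0}
      zero_mem' := hP0
      add_mem' := fun {x y} hx hy => by
        have := hPadd x y 0 0 hx hy
        rwa [add_zero] at this
      neg_mem' := fun {x} hx => by
        have e : -x = x := by
          rw [neg_eq_iff_add_eq_zero]
          exact add_self_v x
        rw [e]
        exact hx }
  have h5 : u' ∈ SB := by
    refine span_odd j SB (fun a x hx => hPrt a x 0 hx) u huP ?_ huodd u' ?_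
    · intro i
      rw [← hM]
      exact huper i
    · intro i
      rw [← hM]
      exact huM i
  have h6 := h5.2 0 (Um n m).zero_mem
  have h7 := hu'.2 0 (Um n m).zero_mem
  rw [h6] at h7
  exact absurd (by linear_combination -h7 : (1 : ZMod 2) = 0) (by decide)

end Pool.Agent.U309.RotCubic
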