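import Pool.Agent.U309.RotCubic

/-!
# Rotation symmetric bent functions of degree at most three: the algebraic normal form
-/

set_option autoImplicit false

namespace Pool.Agent.U309.RotCubic

open Finset Pool.Agent.TH979.Rot

section

variable {n : ℕ} [NeZero n]

/-- functions without monomials fixed by the rotation by `m` vanish on the vectors of period `m` -/
theorem ev_zero_on' {m : ℕ} (hn : n = 2 * m) {c : Finset (ZMod n) → ZMod 2}
    (hfix : ∀ S, c S ≠ 0 → tr (m : ZMod n) S ≠ S)
    (hinv : ∀ (a : ZMod n) S, c (tr a S) = c S)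
    {x : ZMod n → ZMod 2} (hx : ∀ i, x (i + (m : ZMod n)) = x i) : ev c x = 0 := by
  have hmm : (m : ZMod n) + m = 0 := half_add hn
  unfold ev
  refine sum_involution (fun S _ => tr (m : ZMod n) S) ?_ ?_ (fun _ _ => mem_univ _) ?_
  · intro S _
    have h1 : ∏ i ∈ tr (m : ZMod n) S, x i = ∏ i ∈ S, x i := by
      rw [prod_tr]
      exact prod_congr rfl fun i _ => hx i
    rw [hinv, h1]
    exact add_self2 _
  · intro S _ hS
    exact hfix S fun h => hS (by rw [h, zero_mul])
  · intro S _
    ext i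
    rw [mem_tr, mem_tr]
    have h3 : i - (m : ZMod n) - m = i := by
      rw [sub_sub, hmm, sub_zero]
    rw [h3]

theorem half_ne {m : ℕ} (hn : n = 2 * m) : (m : ZMod n) ≠ 0 := by
  intro h
  rw [ZMod.natCast_eq_zero_iff] at h
  have h1 : n ≠ 0 := NeZero.ne n
  have h2 := Nat.le_of_dvd (by omega) h
  omega

/-- a set fixed by the rotation by `m = n / 2` has an even number of elements -/
theorem even_of_tr_eq {m : ℕ} (hn : n = 2 * m) {S : Finset (ZMod n)}
    (h1 : tr (m : ZMod n) S = S) : Even S.card := by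
  have hm0 := half_ne hn
  have hmm : (m : ZMod n) + m = 0 := half_add hn
  have h2 : ∑ _i ∈ S, (1 : ZMod 2) = 0 := by
    refine sum_involution (fun i _ => i + (m : ZMod n)) (fun _ _ => add_self2 1) ?_ ?_ ?_
    · intro i _ _ h3
      exact hm0 (by simpa using h3)
    · intro i hi
      rw [← h1, mem_tr, add_sub_cancel_right]
      exact hi
    · intro i _
      rw [add_assoc, hmm, add_zero]
  rw [sum_const, nsmul_eq_mul, mul_one] at h2
  rw [even_iff_two_dvd]
  exact (ZMod.natCast_eq_zero_iff _ _).1 h2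

/-- a two-element set fixed by the rotation by `m = n / 2` -/
theorem pair_of_tr_eq {m : ℕ} (hn : n = 2 * m) {S : Finset (ZMod n)}
    (h1 : tr (m : ZMod n) S = S) (h2 : S.card = 2) : ∃ i, S = {i, i + (m : ZMod n)} := by
  have hm0 := half_ne hn
  obtain ⟨a, b, hab, rfl⟩ := card_eq_two.1 h2
  have h3 : a + (m : ZMod n) ∈ ({a, b} : Finset (ZMod n)) := by
    rw [← h1, mem_tr, add_sub_cancel_right]
    exact mem_insert_self _ _
  rw [mem_insert, mem_singleton] at h3
  rcases h3 with h3 | h3
  · exact absurd (by simpa using h3) hm0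
  · exact ⟨a, by rw [h3]⟩

/-- functions of degree at most three -/
theorem cubic_ev {c : Finset (ZMod n) → ZMod 2} (hc : ∀ S, c S ≠ 0 → S.card ≤ 3) :
    Cubic (ev c) := by
  intro x u v w
  unfold T ev
  simp only [← sum_add_distrib]
  refine sum_congr rfl fun S _ => ?_
  by_cases hS : c S = 0
  · simp [hS]
  have hcard := hc S hS
  simp only [← mul_add]
  congr 1
  have h4 : S.card = 0 ∨ S.card = 1 ∨ S.card = 2 ∨ S.card = 3 := by omega
  rcases h4 with h4 | h4 | h4 | h4
  · rw [card_eq_zero] at h4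
    subst h4
    simp
  · obtain ⟨i, rfl⟩ := card_eq_one.1 h4
    simp only [prod_singleton, Pi.add_apply, Pi.zero_apply]
    ring_nf
    reduce_mod_char
  · obtain ⟨i, j, hij, rfl⟩ := card_eq_two.1 h4
    have hp : ∀ z : ZMod n → ZMod 2, ∏ l ∈ {i, j}, z l = z i * z j := by
      intro z
      rw [prod_insert (by simp [hij]), prod_singleton]
    simp only [hp, Pi.add_apply, Pi.zero_apply]
    ring_nf
    reduce_mod_char
  · obtain ⟨i, j, k, hij, hik, hjk, rfl⟩ := card_eq_three.1 h4
    have hp : ∀ z : ZMod n → ZMod 2, ∏ l ∈ {i, j, k}, z l = z i * z j * z k := by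
      intro z
      rw [prod_insert (by simp [hij, hik]), prod_insert (by simp [hjk]), prod_singleton, mul_assoc]
    simp only [hp, Pi.add_apply, Pi.zero_apply]
    rw [key]
    ring

/-- **Rotation symmetric bent functions of degree at most three** contain the short orbit. -/
theorem short_orbit {m : ℕ} (hn : n = 2 * m) {c : Finset (ZMod n) → ZMod 2}
    (hc : ∀ S, c S ≠ 0 → S.card ≤ 3) (hrot : ∀ x, ev c (fun i => x (i + 1)) = ev c x)
    (hb : Bent (ev c)) (i : ZMod n) : c {i, i + (m : ZMod n)} = 1 := by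
  by_contra hne
  have h0 : c {i, i + (m : ZMod n)} = 0 := by
    revert hne
    generalize c {i, i + (m : ZMod n)} = z
    revert z
    decide
  have hinv := anf_inv hrot
  have hall : ∀ j, c {j, j + (m : ZMod n)} = 0 := by
    intro j
    rw [← h0, ← hinv (j - i) {i, i + (m : ZMod n)}]
    congr 1
    rw [tr_apply, map_insert, map_singleton]
    simp only [Equiv.coe_toEmbedding, Equiv.coe_addRight, add_sub_cancel]
    congr 2
    ring
  -- remove the constant
  set c' : Finset (ZMod n) → ZMod 2 := fun S => if S = ∅ then 0 else c S with hc'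
  have hev : ∀ x, ev c x = ev c' x + c ∅ := by
    intro x
    unfold ev
    rw [← sum_erase_add _ _ (mem_univ (∅ : Finset (ZMod n))),
      ← sum_erase_add (f := fun S => c' S * ∏ i ∈ S, x i) _ (mem_univ (∅ : Finset (ZMod n)))]
    have h1 : ∑ S ∈ univ.erase (∅ : Finset (ZMod n)), c' S * ∏ i ∈ S, x i =
        ∑ S ∈ univ.erase (∅ : Finset (ZMod n)), c S * ∏ i ∈ S, x i := by
      refine sum_congr rfl fun S hS => ?_
      simp only [hc']
      rw [if_neg (ne_of_mem_erase hS)]
    rw [h1]
    simp [hc']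
  have hrot' : ∀ x, ev c' (fun i => x (i + 1)) = ev c' x := by
    intro x
    have h1 := hrot x
    rw [hev, hev] at h1
    exact add_right_cancel h1
  have hb' : Bent (ev c') := by
    intro a
    rw [← hb a]
    have h1 : ∑ x : ZMod n → ZMod 2, sg (ev c x + ∑ i, a i * x i) =
        sg (c ∅) * ∑ x : ZMod n → ZMod 2, sg (ev c' x + ∑ i, a i * x i) := by
      rw [mul_sum]
      refine sum_congr rfl fun x _ => ?_
      rw [hev, add_right_comm, sg_add _ (c ∅), mul_comm]
    rw [h1, mul_pow, sq (sg (c ∅)), sg_sq, one_mul]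
  have hc3 : ∀ S, c' S ≠ 0 → S.card ≤ 3 := by
    intro S hS
    simp only [hc'] at hS
    split_ifs at hS with h
    · exact absurd rfl hS
    · exact hc S hS
  have hm0 : m ≠ 0 := by
    rintro rfl
    exact NeZero.ne n (by rw [hn, mul_zero])
  obtain ⟨j, q, hq, hmq⟩ := Nat.exists_eq_two_pow_mul_odd hm0
  obtain ⟨k, rfl⟩ := hq
  refine core (n := n) (M := 2 ^ j) (k := k) (j := j) rfl (by rw [hn, hmq])
    (f := ev c') (fun a x => rot_all hrot' a x) hb' ?_ (cubic_ev hc3)
  intro x hx
  have hinv' := anf_inv hrot'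
  refine ev_zero_on' (m := m) hn ?_ (fun a S => hinv' a S) ?_
  · intro S hS h1
    have h2 := even_of_tr_eq hn h1
    have h3 := hc3 S hS
    have hSe : S ≠ ∅ := by
      rintro rfl
      simp [hc'] at hS
    have h4 : S.card ≠ 0 := by
      rwa [Ne, card_eq_zero]
    have h5 : S.card = 2 := by
      obtain ⟨t, ht⟩ := h2
      omega
    obtain ⟨i', hi'⟩ := pair_of_tr_eq hn h1 h5
    apply hS
    simp only [hc']
    rw [if_neg hSe, hi', hall]
  · intro i
    have h1 := hx i
    rw [← hmq] at h1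
    exact h1

end

/-- transfer of the theorem to functions on `Fin (2 * m)` -/
theorem short_orbit_fin (m : ℕ) (f : (Fin (2 * m) → ZMod 2) → ZMod 2) (hb : IsBent f)
    (hr : IsRotSym f) (c : Finset (Fin (2 * m)) → ZMod 2) (hc : ∀ S, c S ≠ 0 → S.card ≤ 3)
    (hf : ∀ x, f x = ∑ S : Finset (Fin (2 * m)), c S * ∏ i ∈ S, x i) (i j : Fin (2 * m))
    (hij : (j : ℕ) = i + m) : c {i, j} = 1 := by
  rcases Nat.eq_zero_or_pos m with h0 | h0
  · subst h0
    exact i.elim0
  obtain ⟨k, hk⟩ : ∃ k, 2 * m = k + 1 := ⟨2 * m - 1, by omega⟩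
  have key : ∀ (N : ℕ) (hN : N = k + 1) (f : (Fin N → ZMod 2) → ZMod 2) (_ : IsBent f)
      (_ : IsRotSym f) (c : Finset (Fin N) → ZMod 2) (_ : ∀ S, c S ≠ 0 → S.card ≤ 3)
      (_ : ∀ x, f x = ∑ S : Finset (Fin N), c S * ∏ i ∈ S, x i) (i j : Fin N)
      (_ : (j : ℕ) = i + m), c {i, j} = 1 := by
    intro N hN
    subst hN
    intro f hb hr c hc hf i j hij
    obtain ⟨h1, h2⟩ := transfer hb hr hf
    let I : ZMod (k + 1) := i
    let J : ZMod (k + 1) := j
    have h3 := short_orbit (n := k + 1) (m := m) hk.symm (c := c) (fun S hS => hc S hS) h1 h2 I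
    have h4 : J = I + ((m : ℕ) : ZMod (k + 1)) := by
      have h5 : ((J.val : ℕ) : ZMod (k + 1)) = J := ZMod.natCast_zmod_val J
      have h6 : ((I.val : ℕ) : ZMod (k + 1)) = I := ZMod.natCast_zmod_val I
      have h7 : J.val = I.val + m := hij
      rw [← h5, h7, Nat.cast_add, h6]
    have h8 : ({i, j} : Finset (Fin (k + 1))) = ({I, J} : Finset (ZMod (k + 1))) := rfl
    rw [← h4] at h3
    rw [h8]
    exact h3
  exact key (2 * m) hk f hb hr c hc hf i j hij

end Pool.Agent.U309.RotCubic
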